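import Pool.Agent.X125.Bern

/-! A mixing map and a set of positive measure whose images have transfinite diameter zero
(MP_0638d8). -/

set_option autoImplicit false
open MeasureTheory Filter Topology Set
open scoped ENNReal

namespace Pool.Agent.Results.MP_0638d8_an.TransfiniteDiameter

/-- `ρ_n(A)`: supremum over `n`-tuples of points of `A` of the product of the distances of the
pairs `i < j` to the power `2/(n(n-1))`. -/
noncomputable def rhoN {S : Type} [MetricSpace S] (n : ℕ) (A : Set S) : ℝ≥0∞ :=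
  ⨆ (p : Fin n → S) (_ : ∀ i, p i ∈ A),
    ∏ q ∈ (Finset.univ : Finset (Fin n × Fin n)).filter (fun q => q.1 < q.2),
      edist (p q.1) (p q.2) ^ (2 / ((n : ℝ) * ((n : ℝ) - 1)))

/-- The transfinite diameter, the limit of the (nonincreasing, for `n ≥ 2`) sequence `ρ_n(A)`,
written as an upper limit. -/
noncomputable def rho {S : Type} [MetricSpace S] (A : Set S) : ℝ≥0∞ :=
  Filter.limsup (fun n => rhoN n A) atTop

/-- The essential transfinite diameter. -/
noncomputable def essRho {S : Type} [MetricSpace S] [MeasurableSpace S] (P : Measure S)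
    (A : Set S) : ℝ≥0∞ :=
  ⨅ (B : Set S) (_ : B ⊆ A) (_ : MeasurableSet B) (_ : P B = P A), rho B

/-- `ψ` is measure preserving and mixing. -/
def IsMixing {S : Type} [MeasurableSpace S] (P : Measure S) (ψ : S → S) : Prop :=
  (∀ A, MeasurableSet A → MeasurableSet (ψ ⁻¹' A) ∧ P (ψ ⁻¹' A) = P A) ∧
  ∀ A B, MeasurableSet A → MeasurableSet B →
    Tendsto (fun n : ℕ => P (ψ^[n] ⁻¹' A ∩ B)) atTop (𝓝 (P A * P B))

/-! ### The metric -/

/-- Exponents of the distances. -/
noncomputable def Lk (k : ℕ) : ℝ := k * (2 * k : ℝ) ^ k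

theorem Lk_mono : Monotone Lk := by
  apply monotone_nat_of_le_succ
  intro k
  unfold Lk
  push_cast
  have h1 : (2 * (k : ℝ)) ^ k ≤ (2 * ((k : ℝ) + 1)) ^ k := by gcongr; linarith
  have h2 : (2 * ((k : ℝ) + 1)) ^ k ≤ (2 * ((k : ℝ) + 1)) ^ (k + 1) := by
    apply pow_le_pow_right₀ _ (by omega)
    have : (0 : ℝ) ≤ k := by positivity
    linarith
  apply mul_le_mul (by linarith) (h1.trans h2) (by positivity) (by positivity)

/-- The distance values. -/
noncomputable def dl (k : ℕ) : ℝ := Real.exp (-Lk k)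

theorem dl_pos (k : ℕ) : 0 < dl k := Real.exp_pos _

theorem dl_anti : Antitone dl := by
  intro a b h
  unfold dl
  exact Real.exp_le_exp.2 (neg_le_neg (Lk_mono h))

theorem dl_zero : dl 0 = 1 := by simp [dl, Lk]

theorem dl_le_one (k : ℕ) : dl k ≤ 1 := by
  rw [← dl_zero]; exact dl_anti (Nat.zero_le k)

/-- The space of integer sequences. -/
abbrev S : Type := ℕ → ℕ

open Classical in
/-- The distance function. -/
noncomputable def dd (x y : ℕ → ℕ) : ℝ := if x = y then 0 else dl (PiNat.firstDiff x y)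

theorem dd_le_of_agree (x y : ℕ → ℕ) (k : ℕ) (h : ∀ i < k, x i = y i) : dd x y ≤ dl k := by
  unfold dd
  split_ifs with hxy
  · exact (dl_pos k).le
  · apply dl_anti
    by_contra hlt
    push Not at hlt
    exact PiNat.apply_firstDiff_ne hxy (h _ hlt)

theorem dd_self (x : ℕ → ℕ) : dd x x = 0 := by simp [dd]

theorem dd_ne {x y : ℕ → ℕ} (h : x ≠ y) : dd x y = dl (PiNat.firstDiff x y) := by simp [dd, h]

theorem dd_nonneg (a b : ℕ → ℕ) : 0 ≤ dd a b := by
  unfold dd; split_ifs
  · exact le_rfl
  · exact (dl_pos _).le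

theorem dd_comm (x y : ℕ → ℕ) : dd x y = dd y x := by
  by_cases h : x = y
  · rw [h]
  · rw [dd_ne h, dd_ne (Ne.symm h), PiNat.firstDiff_comm]

theorem dd_tri (x y z : ℕ → ℕ) : dd x z ≤ dd x y + dd y z := by
  by_cases hxz : x = z
  · rw [hxz, dd_self]; exact add_nonneg (dd_nonneg _ _) (dd_nonneg _ _)
  by_cases hxy : x = y
  · rw [hxy]; linarith [dd_nonneg y y]
  by_cases hyz : y = z
  · rw [hyz]; linarith [dd_nonneg z z]
  have h := PiNat.min_firstDiff_le x y z hxz
  rw [dd_ne hxz, dd_ne hxy, dd_ne hyz]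
  have p1 := dl_pos (PiNat.firstDiff x y)
  have p2 := dl_pos (PiNat.firstDiff y z)
  rcases min_le_iff.1 h with h | h
  · linarith [dl_anti h]
  · linarith [dl_anti h]

theorem dd_eq_zero (x y : ℕ → ℕ) (h : dd x y = 0) : x = y := by
  by_contra hne
  rw [dd_ne hne] at h
  exact (dl_pos _).ne' h

noncomputable instance instS : MetricSpace S where
  dist x y := dd x y
  dist_self x := dd_self x
  dist_comm x y := dd_comm x y
  dist_triangle x y z := dd_tri x y z
  eq_of_dist_eq_zero := fun {x y} h => dd_eq_zero x y h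

theorem dist_S (x y : S) : dist x y = dd x y := rfl

/-! ### The probability -/

/-- Geometric weights on `ℕ`. -/
noncomputable def nu : Measure ℕ :=
  Measure.sum (fun i : ℕ => ENNReal.ofReal ((1 / 2) ^ (i + 1)) • Measure.dirac i)

theorem nu_apply (A : Set ℕ) : nu A = ∑' i : ℕ, ENNReal.ofReal ((1 / 2) ^ (i + 1)) * A.indicator 1 i := by
  unfold nu
  rw [Measure.sum_apply _ (MeasurableSet.of_discrete)]
  congr 1
  funext i
  rw [Measure.smul_apply, Measure.dirac_apply' _ MeasurableSet.of_discrete, smul_eq_mul]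

theorem half_sum (m : ℕ) : ∑' i : ℕ, ENNReal.ofReal ((1 / 2 : ℝ) ^ (i + 1 + m))
    = ENNReal.ofReal ((1 / 2) ^ m) := by
  rw [← ENNReal.ofReal_tsum_of_nonneg (fun k => by positivity)]
  · congr 1
    have : ∀ i : ℕ, (1 / 2 : ℝ) ^ (i + 1 + m) = (1 / 2) ^ (m + 1) * (1 / 2) ^ i := by
      intro i; rw [← pow_add]; congr 1; ring
    simp only [this]
    rw [tsum_mul_left, tsum_geometric_of_lt_one (by norm_num) (by norm_num), pow_succ]
    ring
  · have : (fun i : ℕ => (1 / 2 : ℝ) ^ (i + 1 + m)) = fun i : ℕ => (1 / 2) ^ (m + 1) * (1 / 2) ^ i := by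
      funext i; rw [← pow_add]; congr 1; ring
    rw [this]
    exact (summable_geometric_of_lt_one (by norm_num) (by norm_num)).mul_left _

instance nu_prob : IsProbabilityMeasure nu := by
  constructor
  rw [nu_apply]
  have := half_sum 0
  simpa using this

theorem nu_singleton (a : ℕ) : 0 < nu {a} := by
  rw [nu_apply]
  refine lt_of_lt_of_le ?_ (ENNReal.le_tsum a)
  simp

theorem nu_tail (m : ℕ) : nu (Ici m) ≤ ENNReal.ofReal ((1 / 2) ^ m) := by
  rw [nu_apply, ← half_sum m]
  have h0 : ∀ i < m, ENNReal.ofReal ((1 / 2 : ℝ) ^ (i + 1)) * (Ici m).indicator (1 : ℕ → ℝ≥0∞) i = 0 := by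
    intro i hi
    rw [indicator_of_notMem (by simpa using hi), mul_zero]
  rw [← Summable.sum_add_tsum_nat_add' (f := fun i =>
    ENNReal.ofReal ((1 / 2 : ℝ) ^ (i + 1)) * (Ici m).indicator (1 : ℕ → ℝ≥0∞) i) (k := m)
    ENNReal.summable, Finset.sum_eq_zero (fun i hi => h0 i (Finset.mem_range.1 hi)), zero_add]
  apply ENNReal.tsum_le_tsum
  intro i
  rw [indicator_of_mem (by simp)]
  simp only [Pi.one_apply, mul_one]
  apply le_of_eq
  congr 2
  ring

/-- The product probability. -/
noncomputable def PP : Measure S := Pool.Agent.X125.Bern.P nu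

instance : IsProbabilityMeasure PP := by
  unfold PP; infer_instance

/-- Cylinders. -/
def cyl (x : S) (k : ℕ) : Set S := {y | ∀ i < k, y i = x i}

theorem cyl_eq (x : S) (k : ℕ) : cyl x k = Set.pi (↑(Finset.range k)) (fun i => {x i}) := by
  ext y
  simp only [cyl, Set.mem_pi, Finset.mem_coe, Finset.mem_range, mem_ofPred_eq, mem_singleton_iff]

theorem cyl_meas (x : S) (k : ℕ) : MeasurableSet (cyl x k) := by
  rw [cyl_eq]
  exact MeasurableSet.pi (Finset.countable_toSet _) (fun i _ => measurableSet_singleton _)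

theorem cyl_pos (x : S) (k : ℕ) : 0 < PP (cyl x k) := by
  rw [cyl_eq]
  unfold PP Pool.Agent.X125.Bern.P
  rw [Measure.infinitePi_pi _ (fun i _ => measurableSet_singleton _)]
  rw [pos_iff_ne_zero]
  exact Finset.prod_ne_zero_iff.2 (fun i _ => (nu_singleton _).ne')

theorem dl_tendsto : Tendsto dl atTop (𝓝 0) := by
  unfold dl
  apply Real.tendsto_exp_atBot.comp
  rw [tendsto_neg_atBot_iff]
  apply tendsto_atTop_mono (f := fun k : ℕ => (k : ℝ))
  · intro k
    unfold Lk
    rcases Nat.eq_zero_or_pos k with h | h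
    · subst h; simp
    · have hk : (1 : ℝ) ≤ k := by exact_mod_cast h
      have : (1 : ℝ) ≤ (2 * (k : ℝ)) ^ k := one_le_pow₀ (by linarith)
      nlinarith
  · exact tendsto_natCast_atTop_atTop

theorem ball_eq (x : S) (r : ℝ) (hr : 0 < r) :
    Metric.ball x r = ⋃ k ∈ {k : ℕ | dl k < r}, cyl x k := by
  ext y
  simp only [Metric.mem_ball, mem_iUnion, dist_S]
  obtain ⟨k0, hk0⟩ := (dl_tendsto.eventually (gt_mem_nhds hr)).exists
  constructor
  · intro h
    by_cases hxy : y = x
    · refine ⟨k0, hk0, ?_⟩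
      intro i _
      rw [hxy]
    · rw [dd_ne hxy] at h
      refine ⟨_, h, ?_⟩
      intro i hi
      exact PiNat.apply_eq_of_lt_firstDiff hi
  · rintro ⟨k, hk, hy⟩
    exact lt_of_le_of_lt (dd_le_of_agree y x k hy) hk

theorem ball_good (x : S) (r : ℝ) (hr : 0 < r) :
    MeasurableSet (Metric.ball x r) ∧ 0 < PP (Metric.ball x r) := by
  rw [ball_eq x r hr]
  obtain ⟨k0, hk0⟩ := (dl_tendsto.eventually (gt_mem_nhds hr)).exists
  constructor
  · exact MeasurableSet.biUnion (Set.to_countable _) (fun k _ => cyl_meas x k)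
  · exact lt_of_lt_of_le (cyl_pos x k0) (measure_mono (Set.subset_biUnion_of_mem (u := cyl x) hk0))

/-! ### The map and the set -/

/-- The shift. -/
def psi (x : S) : S := fun i => x (i + 1)

theorem psi_iter (n : ℕ) (x : S) (i : ℕ) : psi^[n] x i = x (i + n) := by
  induction n generalizing i with
  | zero => rfl
  | succ n ih =>
    rw [Function.iterate_succ_apply']
    have : psi (psi^[n] x) i = psi^[n] x (i + 1) := rfl
    rw [this, ih]
    congr 1
    ring

theorem psi_eq : psi = (Pool.Agent.X125.Bern.sh 1 : (ℕ → ℕ) → (ℕ → ℕ)) := rfl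

theorem psi_mixing : IsMixing PP psi := by
  constructor
  · intro A hA
    have := Pool.Agent.X125.Bern.mp_sh nu 1
    exact ⟨this.measurable hA, this.measure_preimage hA.nullMeasurableSet⟩
  · intro A B hA hB
    exact Pool.Agent.X125.Bern.mixing nu hA hB

/-- Put a letter in front. -/
def cons (a : ℕ) (y : S) : S := fun i => Nat.casesOn i a y

theorem cons_meas (a : ℕ) : Measurable (cons a) := by
  refine measurable_pi_iff.2 ?_
  intro n
  cases n with
  | zero => exact measurable_const
  | succ n => exact measurable_pi_apply (X := fun _ : ℕ => ℕ) n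

theorem psi_image (B : Set S) (hB : MeasurableSet B) : MeasurableSet (psi '' B) := by
  have h : psi '' B = ⋃ a : ℕ, cons a ⁻¹' B := by
    ext y
    simp only [mem_image, mem_iUnion, mem_preimage]
    constructor
    · rintro ⟨x, hx, rfl⟩
      refine ⟨x 0, ?_⟩
      have : cons (x 0) (psi x) = x := by
        funext i
        cases i with
        | zero => rfl
        | succ i => rfl
      rw [this]; exact hx
    · rintro ⟨a, ha⟩
      exact ⟨_, ha, rfl⟩
  rw [h]
  exact MeasurableSet.iUnion (fun a => (cons_meas a) hB)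

/-- The sets `{x : x_i ≤ i + n + 1}`. -/
def AA (n : ℕ) : Set S := {x | ∀ i, x i ≤ i + n + 1}

theorem AA_meas (n : ℕ) : MeasurableSet (AA n) := by
  have : AA n = ⋂ i : ℕ, (fun x : S => x i) ⁻¹' (Iic (i + n + 1)) := by
    ext x; simp [AA]
  rw [this]
  exact MeasurableSet.iInter (fun i => (measurable_pi_apply (X := fun _ : ℕ => ℕ) i)
    MeasurableSet.of_discrete)

theorem AA_image (n : ℕ) : psi^[n] '' (AA 0) = AA n := by
  ext y
  simp only [mem_image]
  constructor
  · rintro ⟨x, hx, rfl⟩
    intro i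
    rw [psi_iter]
    have := hx (i + n)
    omega
  · intro hy
    refine ⟨fun i => if i < n then 0 else y (i - n), ?_, ?_⟩
    · intro i
      simp only
      split_ifs with h
      · omega
      · have := hy (i - n)
        omega
    · funext i
      rw [psi_iter]
      have h1 : ¬ (i + n < n) := by omega
      simp only [h1, if_false]
      congr 1
      omega

theorem AA_pos : 0 < PP (AA 0) := by
  have h1 : PP (AA 0)ᶜ ≤ ENNReal.ofReal (1 / 2) := by
    have hsub : (AA 0)ᶜ ⊆ ⋃ i : ℕ, (fun x : S => x i) ⁻¹' (Ici (i + 1 + 1)) := by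
      intro x hx
      simp only [AA, mem_compl_iff, mem_ofPred_eq, not_forall, not_le] at hx
      obtain ⟨i, hi⟩ := hx
      simp only [mem_iUnion, mem_preimage, mem_Ici]
      exact ⟨i, by omega⟩
    calc PP (AA 0)ᶜ ≤ PP (⋃ i : ℕ, (fun x : S => x i) ⁻¹' (Ici (i + 1 + 1))) := measure_mono hsub
      _ ≤ ∑' i : ℕ, PP ((fun x : S => x i) ⁻¹' (Ici (i + 1 + 1))) := measure_iUnion_le _
      _ ≤ ∑' i : ℕ, ENNReal.ofReal ((1 / 2) ^ (i + 1 + 1)) := by
          apply ENNReal.tsum_le_tsum
          intro i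
          have hmp := measurePreserving_eval_infinitePi (fun _ : ℕ => nu) i
          have : PP ((fun x : S => x i) ⁻¹' (Ici (i + 1 + 1))) = nu (Ici (i + 1 + 1)) :=
            hmp.measure_preimage MeasurableSet.of_discrete.nullMeasurableSet
          rw [this]
          exact nu_tail _
      _ = ENNReal.ofReal (1 / 2) := by
          rw [half_sum 1]; norm_num
  have h2 : PP (AA 0) = 1 - PP (AA 0)ᶜ := by
    rw [prob_compl_eq_one_sub (AA_meas 0), ENNReal.sub_sub_cancel (by simp) prob_le_one]
  rw [h2]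
  apply tsub_pos_of_lt
  refine lt_of_le_of_lt h1 ?_
  rw [← ENNReal.ofReal_one]
  exact (ENNReal.ofReal_lt_ofReal_iff (by norm_num)).2 (by norm_num)

/-! ### Estimates -/

theorem edist_le (x y : S) (k : ℕ) (h : ∀ i < k, x i = y i) : edist x y ≤ ENNReal.ofReal (dl k) := by
  rw [edist_dist]
  exact ENNReal.ofReal_le_ofReal (dd_le_of_agree x y k h)

theorem edist_le_one (x y : S) : edist x y ≤ 1 := by
  have := edist_le x y 0 (by intro i hi; omega)
  rwa [dl_zero, ENNReal.ofReal_one] at this

/-- Pigeonhole count of pairs in a common cell. -/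
theorem pair_count {V : Type} [Fintype V] [DecidableEq V] (m : ℕ) (c : Fin m → V) :
    (m : ℝ) ^ 2 ≤ (Fintype.card V : ℝ) * (m + 2 * (((Finset.univ : Finset (Fin m × Fin m)).filter
      (fun q => q.1 < q.2 ∧ c q.1 = c q.2)).card : ℝ)) := by
  have h1 : ∑ v : V, ((Finset.univ.filter (fun a => c a = v)).card : ℝ) = m := by
    have := Finset.card_eq_sum_card_fiberwise (f := c) (s := (Finset.univ : Finset (Fin m)))
      (t := (Finset.univ : Finset V)) (fun a _ => by simp)
    rw [Finset.card_univ, Fintype.card_fin] at this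
    exact_mod_cast this.symm
  have h2 := sq_sum_le_card_mul_sum_sq (s := (Finset.univ : Finset V))
    (f := fun v => ((Finset.univ.filter (fun a => c a = v)).card : ℝ))
  rw [h1, Finset.card_univ] at h2
  refine h2.trans (mul_le_mul_of_nonneg_left ?_ (by positivity))
  -- the sum of squares counts ordered pairs
  have h3 : ∑ v : V, ((Finset.univ.filter (fun a => c a = v)).card : ℝ) ^ 2
      = (((Finset.univ : Finset (Fin m × Fin m)).filter (fun q => c q.1 = c q.2)).card : ℝ) := by
    have h4 : ∀ v : V, ((Finset.univ.filter (fun a => c a = v)).card : ℝ) ^ 2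
        = (((Finset.univ : Finset (Fin m × Fin m)).filter
          (fun q => c q.1 = c q.2 ∧ c q.1 = v)).card : ℝ) := by
      intro v
      rw [pow_two, ← Nat.cast_mul, ← Finset.card_product]
      congr 2
      ext q
      simp only [Finset.mem_product, Finset.mem_filter, Finset.mem_univ, true_and]
      constructor
      · rintro ⟨h5, h6⟩; exact ⟨h5.trans h6.symm, h5⟩
      · rintro ⟨h5, h6⟩; exact ⟨h6, h5.symm.trans h6⟩
    rw [Finset.sum_congr rfl (fun v _ => h4 v)]
    have h5 := Finset.card_eq_sum_card_fiberwise (f := fun q : Fin m × Fin m => c q.1)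
      (s := (Finset.univ : Finset (Fin m × Fin m)).filter (fun q => c q.1 = c q.2))
      (t := (Finset.univ : Finset V)) (fun a _ => by simp)
    rw [h5]
    push_cast
    apply Finset.sum_congr rfl
    intro v _
    rw [Finset.filter_filter]
  rw [h3]
  set F : Finset (Fin m × Fin m) := (Finset.univ : Finset (Fin m × Fin m)).filter
    (fun q => q.1 < q.2 ∧ c q.1 = c q.2) with hF
  have hsub : (Finset.univ : Finset (Fin m × Fin m)).filter (fun q => c q.1 = c q.2)
      ⊆ (F ∪ F.image Prod.swap) ∪ (Finset.univ : Finset (Fin m)).image (fun a => (a, a)) := by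
    rintro ⟨a, b⟩ hq
    simp only [Finset.mem_filter, Finset.mem_univ, true_and] at hq
    simp only [Finset.mem_union, Finset.mem_image, hF, Finset.mem_filter, Finset.mem_univ, true_and,
      Prod.exists, Prod.swap_prod_mk, Prod.mk.injEq]
    rcases lt_trichotomy a b with h | h | h
    · left; left; exact ⟨h, hq⟩
    · right; exact ⟨a, rfl, h⟩
    · left; right; exact ⟨b, a, ⟨h, hq.symm⟩, rfl, rfl⟩
  have h6 : ((Finset.univ : Finset (Fin m × Fin m)).filter (fun q => c q.1 = c q.2)).card
      ≤ m + 2 * F.card := by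
    calc _ ≤ ((F ∪ F.image Prod.swap) ∪ (Finset.univ : Finset (Fin m)).image (fun a => (a, a))).card :=
          Finset.card_le_card hsub
      _ ≤ (F ∪ F.image Prod.swap).card + ((Finset.univ : Finset (Fin m)).image (fun a => (a, a))).card :=
          Finset.card_union_le _ _
      _ ≤ (F.card + (F.image Prod.swap).card) + (Finset.univ : Finset (Fin m)).card := by
          exact add_le_add (Finset.card_union_le _ _) Finset.card_image_le
      _ ≤ (F.card + F.card) + m := by
          refine add_le_add (add_le_add le_rfl Finset.card_image_le) ?_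
          simp
      _ = m + 2 * F.card := by ring
  exact_mod_cast h6

theorem rhoN_AA (n k m : ℕ) (hk : n + 1 ≤ k) (hm : 2 * (2 * k) ^ k ≤ m) (hm2 : 2 ≤ m) :
    rhoN m (AA n) ≤ ENNReal.ofReal (Real.exp (-(k / 2 : ℝ))) := by
  unfold rhoN
  apply iSup₂_le
  intro p hp
  set e : ℝ := 2 / ((m : ℝ) * ((m : ℝ) - 1)) with he
  have hmR : (2 : ℝ) ≤ m := by exact_mod_cast hm2
  have hden : 0 < (m : ℝ) * ((m : ℝ) - 1) := mul_pos (by linarith) (by linarith)
  have he0 : 0 < e := by rw [he]; positivity
  set c : Fin m → (Fin k → Fin (2 * k)) := fun a i => ⟨p a i, by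
    have h1 := hp a i.1
    have h2 := i.2
    omega⟩ with hc
  have hcount := pair_count m c
  rw [Fintype.card_fun, Fintype.card_fin, Fintype.card_fin] at hcount
  set F : Finset (Fin m × Fin m) := (Finset.univ : Finset (Fin m × Fin m)).filter
    (fun q => q.1 < q.2 ∧ c q.1 = c q.2) with hF
  set N : ℝ := ((2 * k : ℕ) : ℝ) ^ k with hN
  push_cast at hcount
  have hNN : (2 * (k : ℝ)) ^ k = N := by rw [hN]; push_cast; rfl
  rw [hNN] at hcount
  have hk1 : 1 ≤ k := by omega
  have hkR : (1 : ℝ) ≤ k := by exact_mod_cast hk1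
  have hN0 : 0 < N := by rw [hN]; positivity
  have hmN : 2 * N ≤ m := by
    rw [hN]; exact_mod_cast hm
  -- the exponent
  have hexp : 1 / (2 * N) ≤ e * F.card := by
    have h1 : ((m : ℝ) ^ 2 / N - m) / 2 ≤ F.card := by
      have : (m : ℝ) ^ 2 / N ≤ m + 2 * F.card := by
        rw [div_le_iff₀ hN0]; linarith
      linarith
    have h2 : (m : ℝ) / (2 * N) ≤ (m : ℝ) / N - 1 := by
      have : 1 ≤ (m : ℝ) / (2 * N) := by rw [le_div_iff₀ (by positivity)]; linarith
      have h3 : (m : ℝ) / N = 2 * ((m : ℝ) / (2 * N)) := by field_simp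
      rw [h3]; linarith
    calc 1 / (2 * N) ≤ (m : ℝ) / (2 * N) / ((m : ℝ) - 1) := by
          rw [le_div_iff₀ (by linarith), div_mul_eq_mul_div, one_mul]
          apply div_le_div_of_nonneg_right (by linarith) (by positivity)
      _ ≤ ((m : ℝ) / N - 1) / ((m : ℝ) - 1) := by
          apply div_le_div_of_nonneg_right h2 (by linarith)
      _ = e * (((m : ℝ) ^ 2 / N - m) / 2) := by
          rw [he]
          have : (m : ℝ) - 1 ≠ 0 := by linarith
          have : (m : ℝ) ≠ 0 := by linarith
          field_simp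
      _ ≤ e * F.card := mul_le_mul_of_nonneg_left h1 he0.le
  calc ∏ q ∈ (Finset.univ : Finset (Fin m × Fin m)).filter (fun q => q.1 < q.2),
        edist (p q.1) (p q.2) ^ e
      ≤ ∏ q ∈ (Finset.univ : Finset (Fin m × Fin m)).filter (fun q => q.1 < q.2),
        (if c q.1 = c q.2 then (ENNReal.ofReal (dl k)) ^ e else 1) := by
        apply Finset.prod_le_prod'
        intro q _
        split_ifs with h
        · apply ENNReal.rpow_le_rpow _ he0.le
          apply edist_le
          intro i hi
          have := congrFun h ⟨i, hi⟩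
          simp only [hc, Fin.mk.injEq] at this
          exact this
        · calc edist (p q.1) (p q.2) ^ e ≤ 1 ^ e := ENNReal.rpow_le_rpow (edist_le_one _ _) he0.le
            _ = 1 := ENNReal.one_rpow _
    _ = ((ENNReal.ofReal (dl k)) ^ e) ^ F.card := by
        rw [Finset.prod_ite, Finset.prod_const_one, mul_one, Finset.prod_const,
          Finset.filter_filter]
    _ = ENNReal.ofReal (Real.exp (-(Lk k) * (e * F.card))) := by
        rw [← ENNReal.rpow_natCast, ← ENNReal.rpow_mul, ENNReal.ofReal_rpow_of_pos (dl_pos k)]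
        congr 1
        unfold dl
        rw [← Real.exp_mul]
    _ ≤ ENNReal.ofReal (Real.exp (-(k / 2 : ℝ))) := by
        apply ENNReal.ofReal_le_ofReal
        apply Real.exp_le_exp.2
        have hL : Lk k = k * N := by unfold Lk; rw [hNN]
        rw [hL]
        have h1 : (k * N) * (1 / (2 * N)) = (k : ℝ) / 2 := by field_simp
        have h2 : (k * N) * (1 / (2 * N)) ≤ (k * N) * (e * F.card) :=
          mul_le_mul_of_nonneg_left hexp (by positivity)
        linarith

theorem rho_AA (n : ℕ) : rho (AA n) = 0 := by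
  have h1 : ∀ k : ℕ, n + 1 ≤ k → rho (AA n) ≤ ENNReal.ofReal (Real.exp (-(k / 2 : ℝ))) := by
    intro k hk
    unfold rho
    apply Filter.limsup_le_of_le
    · isBoundedDefault
    · filter_upwards [eventually_ge_atTop (2 * (2 * k) ^ k), eventually_ge_atTop 2] with m hm hm2
      exact rhoN_AA n k m hk hm hm2
  have h2 : Tendsto (fun k : ℕ => ENNReal.ofReal (Real.exp (-(k / 2 : ℝ)))) atTop (𝓝 0) := by
    rw [← ENNReal.ofReal_zero]
    apply ENNReal.tendsto_ofReal
    apply Real.tendsto_exp_atBot.comp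
    rw [tendsto_neg_atBot_iff]
    exact tendsto_natCast_atTop_atTop.atTop_div_const (by norm_num)
  have h3 : rho (AA n) ≤ 0 := by
    apply ge_of_tendsto h2
    filter_upwards [eventually_ge_atTop (n + 1)] with k hk
    exact h1 k hk
  exact le_antisymm h3 bot_le

theorem rho_univ : rho (univ : Set S) = 1 := by
  have h : ∀ m, rhoN m (univ : Set S) = 1 := by
    intro m
    apply le_antisymm
    · unfold rhoN
      apply iSup₂_le
      intro p _
      apply Finset.prod_le_one'
      intro q hq
      have hq2 := (Finset.mem_filter.1 hq).2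
      have hm2 : 2 ≤ m := by
        have h1 := q.1.2
        have h2 := q.2.2
        have h3 : (q.1 : ℕ) < q.2 := hq2
        omega
      have hmR : (2 : ℝ) ≤ m := by exact_mod_cast hm2
      have he0 : 0 ≤ 2 / ((m : ℝ) * ((m : ℝ) - 1)) := by
        apply div_nonneg (by norm_num)
        exact mul_nonneg (by linarith) (by linarith)
      calc edist (p q.1) (p q.2) ^ (2 / ((m : ℝ) * ((m : ℝ) - 1)))
          ≤ 1 ^ (2 / ((m : ℝ) * ((m : ℝ) - 1))) := ENNReal.rpow_le_rpow (edist_le_one _ _) he0
        _ = 1 := ENNReal.one_rpow _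
    · unfold rhoN
      refine le_trans ?_ (le_iSup₂ (f := fun (p : Fin m → S) (_ : ∀ i, p i ∈ (univ : Set S)) =>
        ∏ q ∈ (Finset.univ : Finset (Fin m × Fin m)).filter (fun q => q.1 < q.2),
          edist (p q.1) (p q.2) ^ (2 / ((m : ℝ) * ((m : ℝ) - 1)))) (fun i _ => (i : ℕ))
        (fun _ => mem_univ _))
      apply le_of_eq
      symm
      apply Finset.prod_eq_one
      intro q hq
      have hq2 := (Finset.mem_filter.1 hq).2
      have hne : (fun _ : ℕ => (q.1 : ℕ)) ≠ (fun _ : ℕ => (q.2 : ℕ)) := by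
        intro h
        have := congrFun h 0
        have h3 : (q.1 : ℕ) < q.2 := hq2
        omega
      have hfd : PiNat.firstDiff (fun _ : ℕ => (q.1 : ℕ)) (fun _ : ℕ => (q.2 : ℕ)) = 0 := by
        by_contra h
        have h1 : 0 < PiNat.firstDiff (fun _ : ℕ => (q.1 : ℕ)) (fun _ : ℕ => (q.2 : ℕ)) := by omega
        have h4 : (q.1 : ℕ) = q.2 := PiNat.apply_eq_of_lt_firstDiff h1
        have h3 : (q.1 : ℕ) < q.2 := hq2
        omega
      have he : edist (fun _ : ℕ => (q.1 : ℕ)) (fun _ : ℕ => (q.2 : ℕ)) = (1 : ℝ≥0∞) := by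
        rw [edist_dist, dist_S, dd_ne hne, hfd, dl_zero, ENNReal.ofReal_one]
      rw [he, ENNReal.one_rpow]
  unfold rho
  simp only [h]
  exact Filter.limsup_const _

/-- There are a metric space `S` with a probability for which all balls are measurable of positive
measure, a measure preserving mixing map `ψ` which maps measurable sets to measurable sets, and
a measurable set `A` of positive measure with `ρ(S) = 1` but `ρ(ψⁿ A) = ess ρ(ψⁿ A) = 0` for
all `n`. So neither `ρ(ψⁿ A)` nor `ess ρ(ψⁿ A)` converges to `ρ(S)`. -/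
theorem result : ∃ (S : Type) (_ : MetricSpace S) (_ : MeasurableSpace S) (P : Measure S)
    (_ : IsProbabilityMeasure P) (ψ : S → S) (A : Set S),
    (∀ (x : S) (r : ℝ), 0 < r → MeasurableSet (Metric.ball x r) ∧ 0 < P (Metric.ball x r)) ∧
    IsMixing P ψ ∧ (∀ B : Set S, MeasurableSet B → MeasurableSet (ψ '' B)) ∧
    MeasurableSet A ∧ 0 < P A ∧ rho (univ : Set S) = 1 ∧
    (∀ n, rho (ψ^[n] '' A) = 0) ∧ (∀ n, essRho P (ψ^[n] '' A) = 0) ∧
    ¬ Tendsto (fun n => rho (ψ^[n] '' A)) atTop (𝓝 (rho (univ : Set S))) ∧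
    ¬ Tendsto (fun n => essRho P (ψ^[n] '' A)) atTop (𝓝 (rho (univ : Set S))) := by
  have h1 : ∀ n, rho (psi^[n] '' (AA 0)) = 0 := by
    intro n; rw [AA_image]; exact rho_AA n
  have h2 : ∀ n, essRho PP (psi^[n] '' (AA 0)) = 0 := by
    intro n
    refine le_antisymm ?_ bot_le
    refine le_trans ?_ (h1 n).le
    unfold essRho
    have hm : MeasurableSet (psi^[n] '' (AA 0)) := by rw [AA_image]; exact AA_meas n
    exact (iInf_le _ _).trans ((iInf_le _ subset_rfl).trans ((iInf_le _ hm).trans (iInf_le _ rfl)))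
  refine ⟨S, instS, inferInstance, PP, inferInstance, psi, AA 0, ball_good, psi_mixing, psi_image,
    AA_meas 0, AA_pos, rho_univ, h1, h2, ?_, ?_⟩
  · simp only [h1, rho_univ]
    intro h
    exact zero_ne_one (tendsto_nhds_unique tendsto_const_nhds h)
  · simp only [h2, rho_univ]
    intro h
    exact zero_ne_one (tendsto_nhds_unique tendsto_const_nhds h)

end Pool.Agent.Results.MP_0638d8_an.TransfiniteDiameter
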